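import Pool.Agent.H54.Euler

set_option autoImplicit false

namespace Pool.Agent.Results.MP_209e83_co.TypeB
open Finset
open Pool.Agent.H54.Euler (ins ins_at ins_succAbove ins_bij)

/-- The window 0 = w(0), w(1), ..., w(n) of the signed permutation with absolute values
|w(i+1)| = σ(i) + 1 and w(i+1) negative exactly when ε(i) is true. -/
def win {n : ℕ} (σ : Equiv.Perm (Fin n)) (ε : Fin n → Bool) : ℕ → ℤ
  | 0 => 0
  | j + 1 => if h : j < n then
      (if ε ⟨j, h⟩ = true then -(((σ ⟨j, h⟩ : ℕ) : ℤ) + 1) else ((σ ⟨j, h⟩ : ℕ) : ℤ) + 1) else 0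

/-- The number of type B descents: indices i in {0, ..., n-1} with w(i) > w(i+1). -/
def desB {n : ℕ} (σ : Equiv.Perm (Fin n)) (ε : Fin n → Bool) : ℕ :=
  ((Finset.range n).filter (fun i => win σ ε (i + 1) < win σ ε i)).card

/-- The type B Eulerian number: signed permutations of [n] with exactly k type B descents. -/
def eulB (n k : ℕ) : ℕ :=
  ((Finset.univ : Finset (Equiv.Perm (Fin n) × (Fin n → Bool))).filter
    (fun w => desB w.1 w.2 = k)).card

theorem ins_seq (n p : ℕ) (hp : p ≤ n) (u v : ℕ → ℤ) (M : ℤ) (s : Bool)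
    (hM : ∀ j ≤ n, if s = true then M < u j else u j < M)
    (hv : ∀ j ≤ n + 1, v j = if j ≤ p then u j else if j = p + 1 then M else u (j - 1)) :
    ∑ j ∈ range (n + 1), (if v (j + 1) < v j then 1 else 0 : ℕ) +
      (if p < n ∧ u (p + 1) < u p then 1 else 0) =
    ∑ j ∈ range n, (if u (j + 1) < u j then 1 else 0 : ℕ) +
      (if p < n ∨ s = true then 1 else 0) := by
  obtain ⟨r, rfl⟩ := Nat.exists_eq_add_of_le hp
  have a1 : ∑ j ∈ range p, (if v (j + 1) < v j then 1 else 0 : ℕ) =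
      ∑ j ∈ range p, (if u (j + 1) < u j then 1 else 0 : ℕ) := by
    refine sum_congr rfl fun j hj => ?_
    have := mem_range.1 hj
    rw [hv (j + 1) (by omega), hv j (by omega), if_pos (show j + 1 ≤ p by omega),
      if_pos (show j ≤ p by omega)]
  have vp : v p = u p := by rw [hv p (by omega), if_pos le_rfl]
  have vp1 : v (p + 1) = M := by rw [hv (p + 1) (by omega), if_neg (by omega), if_pos rfl]
  have m0 := hM p (by omega)
  rcases r with _ | r
  · rw [Nat.add_zero, sum_range_succ, a1, vp, vp1]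
    cases s <;> simp at m0 ⊢ <;> omega
  · have m1 := hM (p + 1) (by omega)
    have vp2 : v (p + 1 + 1) = u (p + 1) := by
      rw [hv (p + 1 + 1) (by omega), if_neg (by omega), if_neg (by omega)]; rfl
    have a2 : ∑ j ∈ range r, (if v (p + 2 + j + 1) < v (p + 2 + j) then 1 else 0 : ℕ) =
        ∑ j ∈ range r, (if u (p + 1 + j + 1) < u (p + 1 + j) then 1 else 0 : ℕ) := by
      refine sum_congr rfl fun j hj => ?_
      have := mem_range.1 hj
      rw [hv (p + 2 + j + 1) (by omega), hv (p + 2 + j) (by omega),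
        if_neg (show ¬ p + 2 + j + 1 ≤ p by omega), if_neg (show ¬ p + 2 + j + 1 = p + 1 by omega),
        if_neg (show ¬ p + 2 + j ≤ p by omega), if_neg (show ¬ p + 2 + j = p + 1 by omega),
        show p + 2 + j + 1 - 1 = p + 1 + j + 1 by omega, show p + 2 + j - 1 = p + 1 + j by omega]
    rw [show p + (r + 1) + 1 = p + 2 + r by omega, show p + (r + 1) = p + 1 + r by omega,
      sum_range_add, sum_range_add _ (p + 1) r, sum_range_succ, sum_range_succ, sum_range_succ,
      a1, a2, vp, vp1, vp2]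
    have hlt : p < p + 1 + r := by omega
    cases s <;> simp [hlt] at m0 m1 ⊢ <;> split_ifs <;> omega

theorem win_bd {n : ℕ} (σ : Equiv.Perm (Fin n)) (ε : Fin n → Bool) (j : ℕ) :
    -((n : ℤ) + 1) < win σ ε j ∧ win σ ε j < (n : ℤ) + 1 := by
  rcases j with _ | j
  · simp only [win]; omega
  · simp only [win]
    split_ifs with h1 h2
    · have := (σ ⟨j, h1⟩).2; omega
    · have := (σ ⟨j, h1⟩).2; omega
    · omega

theorem win_ins {n : ℕ} (p : Fin (n + 1)) (σ : Equiv.Perm (Fin n)) (s : Bool) (ε : Fin n → Bool)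
    (j : ℕ) (hj : j ≤ n + 1) :
    win (ins p σ) (p.insertNth s ε) j = if j ≤ p then win σ ε j else if j = p + 1 then
      (if s = true then -((n : ℤ) + 1) else (n : ℤ) + 1) else win σ ε (j - 1) := by
  have hp := p.2
  rcases j with _ | j
  · simp [win]
  · by_cases h1 : j + 1 ≤ p
    · rw [if_pos h1]
      have h2 : j < n := by omega
      have : (⟨j, by omega⟩ : Fin (n + 1)) = p.succAbove ⟨j, h2⟩ := by
        rw [Fin.succAbove_of_castSucc_lt _ _ (by exact h1)]; rfl
      simp only [win]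
      rw [dif_pos (by omega), dif_pos h2, this, ins_succAbove, Fin.insertNth_apply_succAbove]
      rfl
    · rw [if_neg h1]
      by_cases h3 : j + 1 = p + 1
      · rw [if_pos h3]
        have : (⟨j, by omega⟩ : Fin (n + 1)) = p := Fin.ext (by simp only; omega)
        simp only [win]
        rw [dif_pos (by omega), this, ins_at, Fin.insertNth_apply_same]
        rfl
      · rw [if_neg h3]
        obtain ⟨i, rfl⟩ : ∃ i, j = i + 1 := ⟨j - 1, by omega⟩
        have h4 : i < n := by omega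
        have : (⟨i + 1, by omega⟩ : Fin (n + 1)) = p.succAbove ⟨i, h4⟩ := by
          rw [Fin.succAbove_of_le_castSucc _ _ (by
            rw [Fin.le_def]; simp only [Fin.val_castSucc]; omega)]
          rfl
        simp only [win, Nat.add_sub_cancel]
        rw [dif_pos (by omega), dif_pos h4, this, ins_succAbove, Fin.insertNth_apply_succAbove]
        rfl

theorem desB_eq {n : ℕ} (σ : Equiv.Perm (Fin n)) (ε : Fin n → Bool) :
    desB σ ε = ∑ j ∈ range n, (if win σ ε (j + 1) < win σ ε j then 1 else 0 : ℕ) := by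
  rw [desB, card_filter]

theorem desB_le {n : ℕ} (σ : Equiv.Perm (Fin n)) (ε : Fin n → Bool) : desB σ ε ≤ n := by
  unfold desB
  exact (card_filter_le _ _).trans (card_range n).le

theorem desB_ins {n : ℕ} (p : Fin (n + 1)) (σ : Equiv.Perm (Fin n)) (s : Bool) (ε : Fin n → Bool) :
    desB (ins p σ) (p.insertNth s ε) + (if (p : ℕ) < n ∧ win σ ε (p + 1) < win σ ε p then 1 else 0) =
      desB σ ε + (if (p : ℕ) < n ∨ s = true then 1 else 0) := by
  rw [desB_eq, desB_eq]
  refine ins_seq n p (by have := p.2; omega) _ _ _ s (fun j _ => ?_) (win_ins p σ s ε)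
  have := win_bd σ ε j
  cases s
  · simpa using this.2
  · simpa using this.1

theorem sum_ins {n : ℕ} (σ : Equiv.Perm (Fin n)) (ε : Fin n → Bool) (f : ℕ → ℝ) :
    ∑ p : Fin (n + 1), ∑ s : Bool, f (desB (ins p σ) (p.insertNth s ε)) =
      (2 * desB σ ε + 1) * f (desB σ ε) + (2 * n - 2 * desB σ ε + 1) * f (desB σ ε + 1) := by
  have h : ∀ p : Fin (n + 1), ∑ s : Bool, f (desB (ins p σ) (p.insertNth s ε)) =
      (fun q : ℕ => if q < n then 2 * (f (desB σ ε + 1) +
        ((if win σ ε (q + 1) < win σ ε q then 1 else 0 : ℕ) : ℝ) * (f (desB σ ε) - f (desB σ ε + 1)))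
        else f (desB σ ε) + f (desB σ ε + 1)) p := by
    intro p
    have h1 := desB_ins p σ true ε
    have h2 := desB_ins p σ false ε
    rw [Fintype.sum_bool]
    simp only
    by_cases hp : (p : ℕ) < n
    · by_cases hd : win σ ε (p + 1) < win σ ε p
      · simp only [hp, hd, and_self, true_or, if_true, Nat.add_right_cancel_iff] at h1 h2 ⊢
        rw [h1, h2]; push_cast; ring
      · simp only [hp, hd, and_false, true_or, if_true, if_false, Nat.add_zero] at h1 h2 ⊢
        rw [h1, h2]; push_cast; ring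
    · simp only [hp, false_and, false_or, if_true, if_false, Nat.add_zero, Bool.false_eq_true]
        at h1 h2 ⊢
      rw [h1, h2]; ring
  rw [sum_congr rfl (fun p _ => h p), Fin.sum_univ_eq_sum_range (fun q : ℕ => if q < n then
    2 * (f (desB σ ε + 1) + ((if win σ ε (q + 1) < win σ ε q then 1 else 0 : ℕ) : ℝ) *
      (f (desB σ ε) - f (desB σ ε + 1))) else f (desB σ ε) + f (desB σ ε + 1)) (n + 1),
    sum_range_succ, if_neg (lt_irrefl n),
    sum_congr rfl (fun q hq => if_pos (mem_range.1 hq)), ← mul_sum, sum_add_distrib, ← sum_mul,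
    ← Nat.cast_sum, ← desB_eq, sum_const, card_range, nsmul_eq_mul]
  ring

theorem rec_sum (n : ℕ) (f : ℕ → ℝ) :
    ∑ w : Equiv.Perm (Fin (n + 1)) × (Fin (n + 1) → Bool), f (desB w.1 w.2) =
      ∑ w : Equiv.Perm (Fin n) × (Fin n → Bool), ((2 * desB w.1 w.2 + 1) * f (desB w.1 w.2) +
        (2 * n - 2 * desB w.1 w.2 + 1) * f (desB w.1 w.2 + 1)) := by
  rw [Fintype.sum_prod_type, ← (ins_bij n).sum_comp (fun τ => ∑ η, f (desB τ η)),
    Fintype.sum_prod_type_right, Fintype.sum_prod_type]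
  refine sum_congr rfl fun σ _ => ?_
  simp only [← sum_ins]
  rw [sum_comm (s := (univ : Finset (Fin n → Bool)))]
  refine sum_congr rfl fun p _ => ?_
  rw [← (Fin.insertNthEquiv (fun _ => Bool) p).sum_comp (fun η => f (desB (ins p σ) η)),
    Fintype.sum_prod_type_right]
  rfl

theorem z_eq (x : ℕ → ℝ) (n : ℕ) : ∑ k ∈ range (n + 1), (eulB n k : ℝ) * x k =
    ∑ w : Equiv.Perm (Fin n) × (Fin n → Bool), x (desB w.1 w.2) := by
  rw [← sum_fiberwise_of_maps_to (s := univ) (t := range (n + 1))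
    (g := fun w : Equiv.Perm (Fin n) × (Fin n → Bool) => desB w.1 w.2)
    (fun w _ => mem_range.mpr (Nat.lt_succ_of_le (desB_le w.1 w.2)))]
  refine sum_congr rfl (fun k _ => ?_)
  rw [sum_congr rfl (fun w hw => by rw [(mem_filter.mp hw).2]), sum_const, nsmul_eq_mul]
  rfl

theorem result : ∀ x : ℕ → ℝ, (∀ k, 0 ≤ x k) → (∀ k, 1 ≤ k → x k ^ 2 ≤ x (k - 1) * x (k + 1)) →
    ∀ z : ℕ → ℝ, (∀ n, z n = ∑ k ∈ Finset.range (n + 1), (eulB n k : ℝ) * x k) →
      (∀ n, 0 ≤ z n) ∧ ∀ n, 1 ≤ n → z n ^ 2 ≤ z (n - 1) * z (n + 1) := by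
  intro x h0 hx z hz
  refine ⟨fun n => ?_, fun n hn => ?_⟩
  · rw [hz]
    exact sum_nonneg fun k _ => mul_nonneg (Nat.cast_nonneg _) (h0 k)
  obtain ⟨n, rfl⟩ : ∃ m, n = m + 1 := ⟨n - 1, by omega⟩
  rw [Nat.add_sub_cancel, hz, hz, hz, z_eq, z_eq, z_eq, rec_sum (n + 1) x,
    rec_sum n (fun k : ℕ => (2 * (k : ℝ) + 1) * x k + (2 * ((n + 1 : ℕ) : ℝ) - 2 * k + 1) * x (k + 1)),
    rec_sum n x]
  apply sum_sq_le_sum_mul_sum_of_sq_le_mul
  · intro w _; exact h0 _
  · intro w _
    have h1 : (0 : ℝ) ≤ n - desB w.1 w.2 := sub_nonneg.mpr (by exact_mod_cast desB_le w.1 w.2)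
    have a := h0 (desB w.1 w.2)
    have b := h0 (desB w.1 w.2 + 1)
    have c := h0 (desB w.1 w.2 + 1 + 1)
    push_cast
    have h2 : (0 : ℝ) ≤ 2 * n - 2 * desB w.1 w.2 + 1 := by linarith
    have h3 : (0 : ℝ) ≤ 2 * (n + 1) - 2 * desB w.1 w.2 + 1 := by linarith
    have h4 : (0 : ℝ) ≤ 2 * (n + 1) - 2 * (desB w.1 w.2 + 1) + 1 := by linarith
    positivity
  · intro w _
    have h1 : (0 : ℝ) ≤ n := Nat.cast_nonneg n
    have a := h0 (desB w.1 w.2)
    have b := h0 (desB w.1 w.2 + 1)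
    have c := hx (desB w.1 w.2 + 1) (by omega)
    rw [Nat.add_sub_cancel] at c
    push_cast
    have h2 : 0 ≤ (2 * (n : ℝ) - 2 * desB w.1 w.2 + 1) ^ 2 *
        (x (desB w.1 w.2) * x (desB w.1 w.2 + 1 + 1) - x (desB w.1 w.2 + 1) ^ 2) :=
      mul_nonneg (sq_nonneg _) (by linarith)
    have h3 : 0 ≤ ((n : ℝ) + 1) * (x (desB w.1 w.2) * x (desB w.1 w.2 + 1)) := by positivity
    nlinarith

end Pool.Agent.Results.MP_209e83_co.TypeB
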